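import Pool.Agent.N463.HW.Stm

/-!
# Project HW, part POL: the moments in polar coordinates
-/

set_option autoImplicit false

open MeasureTheory Set

namespace Pool.Agent.N713.HW

open Pool.Agent.N463.HW

/-- the integrand -/
noncomputable def ff (m : ℕ) (w : ℝ × ℝ) : ℂ :=
  zz w ^ m * ((m : ℂ) - Real.pi * (‖zz w‖ ^ 2 : ℝ)) * Complex.exp (-Real.pi * (‖zz w‖ ^ 2 : ℝ))

/-- the radial part -/
noncomputable def gg (m : ℕ) (s : ℝ) : ℝ :=
  s ^ (m + 1) * (m - Real.pi * s ^ 2) * Real.exp (-Real.pi * s ^ 2)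

/-- the integrand in polar coordinates -/
noncomputable def hh (m : ℕ) (p : ℝ × ℝ) : ℂ :=
  Complex.exp (m * (p.2 : ℂ) * Complex.I) * (gg m p.1 : ℂ)

theorem cont_gg (m : ℕ) : Continuous (gg m) := by
  unfold gg
  fun_prop

theorem cont_hh (m : ℕ) : Continuous (hh m) := by
  unfold hh
  have := cont_gg m
  fun_prop

theorem cont_zz : Continuous zz := by
  unfold zz
  fun_prop

theorem zz_pol (s θ : ℝ) : zz (s * Real.cos θ, s * Real.sin θ) =
    s * (Complex.cos θ + Complex.sin θ * Complex.I) := by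
  unfold zz
  push_cast
  ring

theorem zz_norm {s : ℝ} (hs : 0 < s) (θ : ℝ) : ‖zz (s * Real.cos θ, s * Real.sin θ)‖ = s := by
  rw [zz_pol, norm_mul, Complex.norm_cos_add_sin_mul_I, mul_one, Complex.norm_real,
    Real.norm_eq_abs, abs_of_pos hs]

theorem zz_arg {s θ : ℝ} (hs : 0 < s) (hθ : θ ∈ Ioo (-Real.pi) Real.pi) :
    Complex.arg (zz (s * Real.cos θ, s * Real.sin θ)) = θ := by
  rw [zz_pol]
  exact Complex.arg_mul_cos_add_sin_mul_I hs ⟨hθ.1, hθ.2.le⟩

theorem meas_dom {r : ℝ → ℝ} (hr : Continuous r) : MeasurableSet (dom r) := by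
  unfold dom
  refine measurableSet_lt cont_zz.norm.measurable ?_
  exact hr.measurable.comp (Complex.measurable_arg.comp cont_zz.measurable)

theorem ff_pol (m : ℕ) {s : ℝ} (hs : 0 < s) (θ : ℝ) :
    s • ff m (s * Real.cos θ, s * Real.sin θ) = hh m (s, θ) := by
  unfold ff hh gg
  rw [zz_norm hs, zz_pol]
  have h1 : Complex.cos θ + Complex.sin θ * Complex.I = Complex.exp (θ * Complex.I) := by
    rw [Complex.exp_mul_I]
  rw [h1, mul_pow, ← Complex.exp_nat_mul, Complex.real_smul]
  have h2 : (m : ℂ) * (θ * Complex.I) = m * (θ : ℂ) * Complex.I := by ring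
  rw [h2]
  push_cast
  ring

/-- the domain in polar coordinates -/
def DD (r : ℝ → ℝ) : Set (ℝ × ℝ) := {p | 0 < p.1 ∧ p.1 < r p.2 ∧ -Real.pi < p.2 ∧ p.2 < Real.pi}

theorem meas_DD {r : ℝ → ℝ} (hr : Continuous r) : MeasurableSet (DD r) := by
  have h1 : IsOpen (DD r) := by
    refine (isOpen_lt continuous_const continuous_fst).inter
      ((isOpen_lt continuous_fst (hr.comp continuous_snd)).inter
        ((isOpen_lt continuous_const continuous_snd).inter
          (isOpen_lt continuous_snd continuous_const)))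
  exact h1.measurableSet

theorem int_DD {r : ℝ → ℝ} (hr : Continuous r) (m : ℕ) :
    Integrable ((DD r).indicator (hh m)) := by
  rw [integrable_indicator_iff (meas_DD hr)]
  obtain ⟨M, hM⟩ := (isCompact_Icc (a := -Real.pi) (b := Real.pi)).bddAbove_image hr.continuousOn
  have hsub : DD r ⊆ Icc 0 M ×ˢ Icc (-Real.pi) Real.pi := by
    rintro p ⟨h1, h2, h3, h4⟩
    refine ⟨⟨h1.le, h2.le.trans (hM ⟨p.2, ⟨h3.le, h4.le⟩, rfl⟩)⟩, ⟨h3.le, h4.le⟩⟩
  exact ((cont_hh m).continuousOn.integrableOn_compact (isCompact_Icc.prod isCompact_Icc)).mono_set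
    hsub

theorem t_POL : S_POL := by
  intro r hr m hm
  have hrc := hr.cont
  have h1 : ∫ w in dom r, ff m w = ∫ p, (DD r).indicator (hh m) p := by
    rw [← integral_indicator (meas_dom hrc), ← integral_comp_polarCoord_symm]
    rw [← integral_indicator polarCoord.open_target.measurableSet]
    refine integral_congr_ae (Filter.Eventually.of_forall fun p => ?_)
    obtain ⟨s, θ⟩ := p
    have htar : (s, θ) ∈ polarCoord.target ↔ 0 < s ∧ -Real.pi < θ ∧ θ < Real.pi := Iff.rfl
    show polarCoord.target.indicator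
      (fun p : ℝ × ℝ => p.1 • (dom r).indicator (ff m) (polarCoord.symm p)) (s, θ) =
      (DD r).indicator (hh m) (s, θ)
    by_cases ht : (s, θ) ∈ polarCoord.target
    · rw [indicator_of_mem ht]
      obtain ⟨hs, hθ1, hθ2⟩ := htar.1 ht
      have hsymm : polarCoord.symm (s, θ) = (s * Real.cos θ, s * Real.sin θ) := rfl
      show s • (dom r).indicator (ff m) (polarCoord.symm (s, θ)) = (DD r).indicator (hh m) (s, θ)
      rw [hsymm]
      have hdom : (s * Real.cos θ, s * Real.sin θ) ∈ dom r ↔ (s, θ) ∈ DD r := by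
        show ‖zz (s * Real.cos θ, s * Real.sin θ)‖ <
          r (Complex.arg (zz (s * Real.cos θ, s * Real.sin θ))) ↔
          (0 < s ∧ s < r θ ∧ -Real.pi < θ ∧ θ < Real.pi)
        rw [zz_norm hs, zz_arg hs ⟨hθ1, hθ2⟩]
        exact ⟨fun h => ⟨hs, h, hθ1, hθ2⟩, fun h => h.2.1⟩
      by_cases hd : (s, θ) ∈ DD r
      · rw [indicator_of_mem hd, indicator_of_mem (hdom.2 hd), ff_pol m hs]
      · rw [indicator_of_notMem hd, indicator_of_notMem fun h => hd (hdom.1 h), smul_zero]
    · rw [indicator_of_notMem ht, indicator_of_notMem]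
      rintro ⟨h2, -, h4, h5⟩
      exact ht (htar.2 ⟨h2, h4, h5⟩)
  have h2 : ∫ p, (DD r).indicator (hh m) p =
      ∫ θ, ∫ s, (DD r).indicator (hh m) (s, θ) := by
    rw [Measure.volume_eq_prod]
    refine integral_prod_symm _ ?_
    rw [← Measure.volume_eq_prod]
    exact int_DD hrc m
  have h3 : ∀ θ : ℝ, ∫ s, (DD r).indicator (hh m) (s, θ) =
      (Ioo (-Real.pi) Real.pi).indicator
        (fun θ => Complex.exp (m * (θ : ℂ) * Complex.I) * (Gam m (r θ) : ℂ)) θ := by
    intro θ
    by_cases hθ : θ ∈ Ioo (-Real.pi) Real.pi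
    · rw [indicator_of_mem hθ]
      have h4 : (fun s => (DD r).indicator (hh m) (s, θ)) =
          (Ioo 0 (r θ)).indicator fun s => hh m (s, θ) := by
        funext s
        by_cases hs : s ∈ Ioo 0 (r θ)
        · rw [indicator_of_mem hs, indicator_of_mem]
          exact ⟨hs.1, hs.2, hθ.1, hθ.2⟩
        · rw [indicator_of_notMem hs, indicator_of_notMem]
          exact fun h => hs ⟨h.1, h.2.1⟩
      rw [h4, integral_indicator measurableSet_Ioo]
      show ∫ s in Ioo 0 (r θ), Complex.exp (m * (θ : ℂ) * Complex.I) * (gg m s : ℂ) = _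
      rw [integral_const_mul]
      congr 1
      rw [← integral_Ioc_eq_integral_Ioo, ← intervalIntegral.integral_of_le (hr.pos θ).le,
        intervalIntegral.integral_ofReal]
      rfl
    · rw [indicator_of_notMem hθ]
      have h4 : (fun s => (DD r).indicator (hh m) (s, θ)) = fun _ => 0 := by
        funext s
        rw [indicator_of_notMem]
        exact fun h => hθ ⟨h.2.2.1, h.2.2.2⟩
      rw [h4, integral_zero]
  show ∫ w in dom r, ff m w = 0
  rw [h1, h2]
  simp_rw [h3]
  rw [integral_indicator measurableSet_Ioo, ← integral_Ioc_eq_integral_Ioo,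
    ← intervalIntegral.integral_of_le (by linarith [Real.pi_pos])]
  exact hr.mom m hm

end Pool.Agent.N713.HW
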